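import Mathlib

set_option autoImplicit false

/-! Auxiliary facts on free groups: elements commuting with two distinct basis elements are
trivial, commutation is transitive on nontrivial elements, and a criterion for a subgroup not to
be finitely generated. -/

namespace Pool.Agent.Helper27

open FreeGroup

theorem eq_replicate_of_append_eq_cons {α : Type*} (a : α) :
    ∀ w : List α, w ++ [a] = a :: w → w = List.replicate w.length a := by
  intro w
  induction w with
  | nil => intro _; rfl
  | cons b w ih =>
    intro h
    have h1 : b = a ∧ w ++ [a] = b :: w := by
      simpa using h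
    obtain ⟨h1, h2⟩ := h1
    subst h1
    have := ih h2
    rw [List.length_cons, List.replicate_succ, ← this]

theorem toWord_of_commute_of {α : Type*} [DecidableEq α] (x : α) (z : FreeGroup α)
    (h : z * of x = of x * z) : ∃ (k : ℕ) (e : Bool), z.toWord = List.replicate k (x, e) := by
  rcases List.eq_nil_or_concat z.toWord with h0 | ⟨w, l, hl⟩
  · exact ⟨0, true, by simp [h0]⟩
  · obtain ⟨y, d⟩ := l
    have hex : ∃ e : Bool, (y = x → d = e) := ⟨d, fun _ => rfl⟩
    obtain ⟨e, he⟩ := hex
    have hcomm : z * mk [(x, e)] = mk [(x, e)] * z := by
      cases e with
      | true => exact h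
      | false =>
        have h3 : (mk [(x, false)] : FreeGroup α) = (of x)⁻¹ := by
          simp [of, inv_mk, invRev]
        rw [h3]
        have : Commute z (of x) := h
        exact (this.inv_right).eq
    have hw1 : (z * mk [(x, e)]).toWord = z.toWord ++ [(x, e)] := by
      rw [toWord_mul, toWord_mk, reduce_singleton]
      apply FreeGroup.IsReduced.reduce_eq
      have hz : FreeGroup.IsReduced z.toWord := isReduced_toWord
      rw [hl] at hz ⊢
      unfold FreeGroup.IsReduced at hz ⊢
      rw [List.isChain_append]
      refine ⟨hz, List.isChain_singleton _, ?_⟩
      intro a ha b hb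
      simp at ha hb
      subst ha hb
      exact he
    have hw2 : (mk [(x, e)] * z).toWord = (x, e) :: z.toWord := by
      have h4 : (mk [(x, e)] * z).toWord = reduce ((x, e) :: z.toWord) := by
        rw [toWord_mul, toWord_mk, reduce_singleton]; rfl
      have h5 : (reduce ((x, e) :: z.toWord)).length = ((x, e) :: z.toWord).length := by
        rw [← h4, ← hcomm, hw1]; simp
      rw [h4]
      exact (reduce.red.sublist).eq_of_length h5
    have : z.toWord ++ [(x, e)] = (x, e) :: z.toWord := by
      rw [← hw1, hcomm, hw2]
    exact ⟨_, e, eq_replicate_of_append_eq_cons _ _ this⟩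

theorem eq_one_of_commute_of_of {α : Type*} (x y : α) (hxy : x ≠ y) (z : FreeGroup α)
    (hx : z * of x = of x * z) (hy : z * of y = of y * z) : z = 1 := by
  classical
  obtain ⟨k, e, h1⟩ := toWord_of_commute_of x z hx
  obtain ⟨l, d, h2⟩ := toWord_of_commute_of y z hy
  rw [← toWord_eq_nil_iff]
  cases k with
  | zero => simpa using h1
  | succ k =>
    exfalso
    have hl : l = k + 1 := by
      have := congrArg List.length (h2.symm.trans h1)
      simpa using this
    subst hl
    rw [h1, List.replicate_succ, List.replicate_succ] at h2
    have := (List.cons.inj h2).1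
    exact hxy (congrArg Prod.fst this)

theorem comm_of_subsingleton {α : Type*} [Subsingleton α] (u v : FreeGroup α) :
    u * v = v * u := by
  have key : ∀ (x : α) (v : FreeGroup α), Commute (of x) v := by
    intro x v
    induction v using FreeGroup.induction_on with
    | C1 => exact Commute.one_right _
    | of y => rw [Subsingleton.elim y x]
    | inv_of y h => exact h.inv_right
    | mul a b ha hb => exact ha.mul_right hb
  have : Commute u v := by
    induction u using FreeGroup.induction_on with
    | C1 => exact Commute.one_left _
    | of y => exact key y v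
    | inv_of y h => exact h.inv_left
    | mul a b ha hb => exact ha.mul_left hb
  exact this.eq

theorem comm_of_free_of_center {F : Type*} [Group F] [IsFreeGroup F] (z : F) (hz : z ≠ 1)
    (hc : ∀ u : F, z * u = u * z) (u v : F) : u * v = v * u := by
  let e := IsFreeGroup.toFreeGroup F
  have hsub : Subsingleton (IsFreeGroup.Generators F) := by
    constructor
    intro x y
    by_contra hxy
    apply hz
    have h1 : e z = 1 := by
      apply eq_one_of_commute_of_of x y hxy
      · have := congrArg e (hc (e.symm (of x)))
        simpa using this
      · have := congrArg e (hc (e.symm (of y)))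
        simpa using this
    exact (MulEquiv.map_eq_one_iff e).1 h1
  apply e.injective
  rw [_root_.map_mul, _root_.map_mul]
  exact comm_of_subsingleton _ _

/-- Commutation is transitive on nontrivial elements of a free group. -/
theorem comm_trans {α : Type*} (z c d : FreeGroup α) (hz : z ≠ 1)
    (h1 : z * c = c * z) (h2 : z * d = d * z) : c * d = d * c := by
  let K : Subgroup (FreeGroup α) := Subgroup.closure {z, c, d}
  have hzK : z ∈ K := Subgroup.subset_closure (by simp)
  have hcK : c ∈ K := Subgroup.subset_closure (by simp)
  have hdK : d ∈ K := Subgroup.subset_closure (by simp)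
  have hle : K ≤ Subgroup.centralizer {z} := by
    rw [Subgroup.closure_le]
    intro w hw
    rw [SetLike.mem_coe, Subgroup.mem_centralizer_iff]
    intro y hy
    rw [Set.mem_singleton_iff] at hy
    subst hy
    simp only [Set.mem_insert_iff, Set.mem_singleton_iff] at hw
    rcases hw with rfl | rfl | rfl
    · rfl
    · exact h1
    · exact h2
  have := comm_of_free_of_center (F := K) ⟨z, hzK⟩ (fun h => hz (congrArg Subtype.val h))
    (fun u => by
      apply Subtype.ext
      have := hle u.2
      rw [Subgroup.mem_centralizer_iff] at this
      exact this z rfl) ⟨c, hcK⟩ ⟨d, hdK⟩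
  exact congrArg Subtype.val this

end Pool.Agent.Helper27
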