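import Mathlib
import Pool.Agent.Helper27.FreeAux

set_option autoImplicit false

/-! Core facts for the fixed closures in `Z^m × F_n`. -/

namespace Pool.Agent.Helper27

open FreeGroup

/-- The affine action on the rationals: the basis element `i0` acts by halving, `i1` acts by adding
one, every other basis element acts trivially. -/
noncomputable def lam {n : ℕ} (i0 i1 : Fin n) : FreeGroup (Fin n) →* Equiv.Perm ℚ :=
  FreeGroup.lift (fun i => if i = i0 then Equiv.mulLeft₀ (1 / 2 : ℚ) (by norm_num)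
    else if i = i1 then Equiv.addRight (1 : ℚ) else 1)

/-- The homomorphism counting the exponent of `i0`, with values in the coordinate `j0`. -/
def theta {m n : ℕ} (j0 : Fin m) (i0 : Fin n) : FreeGroup (Fin n) →* Multiplicative (Fin m → ℤ) :=
  FreeGroup.lift (fun i => if i = i0 then Multiplicative.ofAdd (Pi.single j0 1) else 1)

theorem lam_affine {m n : ℕ} (j0 : Fin m) (i0 i1 : Fin n) (w : FreeGroup (Fin n)) :
    ∃ q : ℚ, ∀ x : ℚ, lam i0 i1 w x =
      (1 / 2 : ℚ) ^ ((Multiplicative.toAdd (theta j0 i0 w)) j0) * x + q := by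
  induction w using FreeGroup.induction_on with
  | C1 => exact ⟨0, by intro x; simp⟩
  | of i =>
    by_cases h0 : i = i0
    · refine ⟨0, ?_⟩
      intro x
      simp [lam, theta, h0]
    · by_cases h1 : i = i1
      · subst h1
        refine ⟨1, ?_⟩
        intro x
        simp [lam, theta, h0]
      · refine ⟨0, ?_⟩
        intro x
        simp [lam, theta, h0, h1]
  | inv_of i h =>
    obtain ⟨q, hq⟩ := h
    set e := (Multiplicative.toAdd (theta j0 i0 (of i))) j0 with he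
    have hne : ((1 / 2 : ℚ) ^ e) ≠ 0 := by positivity
    refine ⟨-((1 / 2 : ℚ) ^ (-e)) * q, ?_⟩
    intro x
    rw [_root_.map_inv, _root_.map_inv]
    rw [Equiv.Perm.inv_eq_iff_eq, hq]
    simp only [toAdd_inv, Pi.neg_apply, ← he]
    rw [zpow_neg]
    field_simp
    ring
  | mul u v hu hv =>
    obtain ⟨q, hq⟩ := hu
    obtain ⟨r, hr⟩ := hv
    refine ⟨(1 / 2 : ℚ) ^ ((Multiplicative.toAdd (theta j0 i0 u)) j0) * r + q, ?_⟩
    intro x
    rw [_root_.map_mul, _root_.map_mul, Equiv.Perm.mul_apply, hr, hq, toAdd_mul, Pi.add_apply,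
      zpow_add₀ (by norm_num)]
    ring

/-- The permutations `x ↦ x + k / D` of the rationals, for `k` an integer. -/
def transSub (D : ℕ) : Subgroup (Equiv.Perm ℚ) where
  carrier := {s | ∃ k : ℤ, ∀ x, s x = x + k / (D : ℚ)}
  one_mem' := ⟨0, by intro x; simp⟩
  mul_mem' := by
    rintro s t ⟨k, hk⟩ ⟨l, hl⟩
    refine ⟨k + l, ?_⟩
    intro x
    rw [Equiv.Perm.mul_apply, hl, hk]
    push_cast
    ring
  inv_mem' := by
    rintro s ⟨k, hk⟩
    refine ⟨-k, ?_⟩
    intro x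
    rw [Equiv.Perm.inv_eq_iff_eq, hk]
    push_cast
    ring

theorem transSub_mono {D E : ℕ} (h : D ∣ E) (hE : E ≠ 0) : transSub D ≤ transSub E := by
  rintro s ⟨k, hk⟩
  obtain ⟨c, rfl⟩ := h
  refine ⟨k * c, ?_⟩
  intro x
  rw [hk]
  have hD : (D : ℚ) ≠ 0 := by
    intro h0
    apply hE
    have : D = 0 := by exact_mod_cast h0
    simp [this]
  have hc : (c : ℚ) ≠ 0 := by
    intro h0
    apply hE
    have : c = 0 := by exact_mod_cast h0
    simp [this]
  push_cast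
  field_simp

theorem exists_transSub_finset {G : Type*} [Group G] (f : G →* Equiv.Perm ℚ) (S : Finset G)
    (h : ∀ s ∈ S, ∃ q : ℚ, ∀ x, f s x = x + q) :
    ∃ D : ℕ, D ≠ 0 ∧ ∀ s ∈ S, f s ∈ transSub D := by
  classical
  induction S using Finset.induction_on with
  | empty => exact ⟨1, one_ne_zero, by simp⟩
  | insert a S ha ih =>
    obtain ⟨D, hD, hS⟩ := ih (fun s hs => h s (Finset.mem_insert_of_mem hs))
    obtain ⟨q, hq⟩ := h a (Finset.mem_insert_self a S)
    refine ⟨D * q.den, mul_ne_zero hD q.den_nz, ?_⟩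
    intro s hs
    rcases Finset.mem_insert.1 hs with rfl | hs
    · apply transSub_mono (D := q.den) (Dvd.intro_left D rfl) (mul_ne_zero hD q.den_nz)
      refine ⟨q.num, ?_⟩
      intro x
      rw [hq, Rat.num_div_den]
    · exact transSub_mono (Dvd.intro _ rfl) (mul_ne_zero hD q.den_nz) (hS s hs)

/-- A subgroup of the free group killed by `theta` and containing all commutators `[a^k, b]` is not
finitely generated. -/
theorem not_fg_of {m n : ℕ} (j0 : Fin m) (i0 i1 : Fin n) (h01 : i1 ≠ i0)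
    (K : Subgroup (FreeGroup (Fin n))) (h1 : ∀ u ∈ K, theta j0 i0 u = 1)
    (h2 : ∀ k : ℕ, (of i0) ^ k * of i1 * ((of i0) ^ k)⁻¹ * (of i1)⁻¹ ∈ K) : ¬ K.FG := by
  rintro ⟨S, hS⟩
  have hT : ∀ s ∈ S, ∃ q : ℚ, ∀ x, lam i0 i1 s x = x + q := by
    intro s hs
    obtain ⟨q, hq⟩ := lam_affine j0 i0 i1 s
    refine ⟨q, ?_⟩
    intro x
    rw [hq, h1 s (by rw [← hS]; exact Subgroup.subset_closure hs)]
    simp
  obtain ⟨D, hD, hDS⟩ := exists_transSub_finset (lam i0 i1) S hT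
  have hK : K ≤ (transSub D).comap (lam i0 i1) := by
    rw [← hS, Subgroup.closure_le]
    intro s hs
    exact hDS s hs
  have h3 := hK (h2 D)
  rw [Subgroup.mem_comap] at h3
  obtain ⟨k, hk⟩ := h3
  have h4 := hk 0
  have ha : ∀ (j : ℕ) (x : ℚ), ((lam i0 i1 (of i0)) ^ j) x = (1 / 2 : ℚ) ^ j * x := by
    intro j
    induction j with
    | zero => intro x; simp
    | succ j ih =>
      intro x
      rw [pow_succ, Equiv.Perm.mul_apply, ih]
      have : lam i0 i1 (of i0) x = (1 / 2 : ℚ) * x := by simp [lam]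
      rw [this, pow_succ]
      ring
  have ha' : ∀ (j : ℕ) (x : ℚ), ((lam i0 i1 (of i0)) ^ j)⁻¹ x = (2 : ℚ) ^ j * x := by
    intro j x
    rw [Equiv.Perm.inv_eq_iff_eq, ha]
    rw [← mul_assoc, ← mul_pow]
    norm_num
  have hb : ∀ x : ℚ, lam i0 i1 (of i1) x = x + 1 := by
    intro x
    simp [lam, h01]
  have hb' : ∀ x : ℚ, (lam i0 i1 (of i1))⁻¹ x = x - 1 := by
    intro x
    rw [Equiv.Perm.inv_eq_iff_eq, hb]
    ring
  have h5 : lam i0 i1 ((of i0) ^ D * of i1 * ((of i0) ^ D)⁻¹ * (of i1)⁻¹) 0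
      = (1 / 2 : ℚ) ^ D - 1 := by
    simp only [_root_.map_mul, _root_.map_inv, _root_.map_pow, Equiv.Perm.mul_apply, hb', ha', hb, ha]
    have : (1 / 2 : ℚ) ^ D * 2 ^ D = 1 := by
      rw [← mul_pow]; norm_num
    linear_combination (-1 : ℚ) * this
  rw [h5] at h4
  have hD' : (D : ℚ) ≠ 0 := by exact_mod_cast hD
  have h6 : (D : ℚ) = 2 ^ D * (k + D) := by
    have h7 : (1 / 2 : ℚ) ^ D * 2 ^ D = 1 := by
      rw [← mul_pow]; norm_num
    have h8 : ((1 / 2 : ℚ) ^ D - 1) * D = k := by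
      rw [h4]; field_simp; ring
    linear_combination (-(D : ℚ)) * h7 + (2 : ℚ) ^ D * h8
  have h9 : (D : ℤ) = 2 ^ D * (k + D) := by exact_mod_cast h6
  have h10 : ((2 : ℤ) ^ D) ∣ (D : ℤ) := ⟨_, h9⟩
  have h11 : (2 : ℤ) ^ D ≤ D := Int.le_of_dvd (by positivity) h10
  have h12 : D < 2 ^ D := Nat.lt_two_pow_self
  have h13 : (D : ℤ) < 2 ^ D := by exact_mod_cast h12
  omega

/-- The commutator `c = [a, b]`. -/
def cc {n : ℕ} (i0 i1 : Fin n) : FreeGroup (Fin n) :=
  of i0 * of i1 * (of i0)⁻¹ * (of i1)⁻¹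

/-- The conjugate `d = a c a⁻¹`. -/
def dd {n : ℕ} (i0 i1 : Fin n) : FreeGroup (Fin n) :=
  of i0 * cc i0 i1 * (of i0)⁻¹

theorem cc_dd_ne {n : ℕ} (i0 i1 : Fin n) (h01 : i1 ≠ i0) :
    cc i0 i1 * dd i0 i1 ≠ dd i0 i1 * cc i0 i1 := by
  intro h
  let f : FreeGroup (Fin n) →* Equiv.Perm (Fin 4) :=
    FreeGroup.lift (fun i => if i = i0 then finRotate 4 else Equiv.swap 0 1)
  have h2 := congrArg f h
  have e0 : f (of i0) = finRotate 4 := by simp [f]
  have e1 : f (of i1) = Equiv.swap 0 1 := by simp [f, h01]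
  simp only [cc, dd, _root_.map_mul, _root_.map_inv, e0, e1] at h2
  revert h2
  decide

/-- The finite generating set: `c`, `d` and their conjugates by the basis elements. -/
def genSet {m n : ℕ} (i0 i1 : Fin n) : Set (Multiplicative (Fin m → ℤ) × FreeGroup (Fin n)) :=
  {(1, cc i0 i1), (1, dd i0 i1)} ∪
    (Set.range (fun i : Fin n => ((1 : Multiplicative (Fin m → ℤ)), of i * cc i0 i1 * (of i)⁻¹)) ∪
      Set.range (fun i : Fin n => ((1 : Multiplicative (Fin m → ℤ)), of i * dd i0 i1 * (of i)⁻¹)))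

theorem genSet_finite {m n : ℕ} (i0 i1 : Fin n) : (genSet (m := m) i0 i1).Finite := by
  unfold genSet
  exact (Set.toFinite _).union ((Set.finite_range _).union (Set.finite_range _))

/-- An endomorphism of `Z^m × F_n` fixing the generating set acts as the identity modulo `Z^m`. -/
theorem snd_eq_of_fix {m n : ℕ} (i0 i1 : Fin n) (h01 : i1 ≠ i0)
    (φ : Multiplicative (Fin m → ℤ) × FreeGroup (Fin n) →*
      Multiplicative (Fin m → ℤ) × FreeGroup (Fin n))
    (h : ∀ g ∈ genSet (m := m) i0 i1, φ g = g) (i : Fin n) :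
    (φ (1, of i)).2 = of i := by
  have hc : φ (1, cc i0 i1) = (1, cc i0 i1) := h _ (by simp [genSet])
  have hd : φ (1, dd i0 i1) = (1, dd i0 i1) := h _ (by simp [genSet])
  have hci : φ (1, of i * cc i0 i1 * (of i)⁻¹) = (1, of i * cc i0 i1 * (of i)⁻¹) :=
    h _ (by simp [genSet])
  have hdi : φ (1, of i * dd i0 i1 * (of i)⁻¹) = (1, of i * dd i0 i1 * (of i)⁻¹) :=
    h _ (by simp [genSet])
  set w := (φ (1, of i)).2 with hw
  have e1 : w * cc i0 i1 * w⁻¹ = of i * cc i0 i1 * (of i)⁻¹ := by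
    have h3 : ((1 : Multiplicative (Fin m → ℤ)), of i * cc i0 i1 * (of i)⁻¹) =
        (1, of i) * (1, cc i0 i1) * (1, of i)⁻¹ := by
      simp
    rw [h3, _root_.map_mul, _root_.map_mul, _root_.map_inv, hc] at hci
    have h4 := congrArg Prod.snd hci
    simpa using h4
  have e2 : w * dd i0 i1 * w⁻¹ = of i * dd i0 i1 * (of i)⁻¹ := by
    have h3 : ((1 : Multiplicative (Fin m → ℤ)), of i * dd i0 i1 * (of i)⁻¹) =
        (1, of i) * (1, dd i0 i1) * (1, of i)⁻¹ := by
      simp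
    rw [h3, _root_.map_mul, _root_.map_mul, _root_.map_inv, hd] at hdi
    have h4 := congrArg Prod.snd hdi
    simpa using h4
  have f1 : ((of i)⁻¹ * w) * cc i0 i1 = cc i0 i1 * ((of i)⁻¹ * w) := by
    calc ((of i)⁻¹ * w) * cc i0 i1 = (of i)⁻¹ * (w * cc i0 i1 * w⁻¹) * w := by group
      _ = (of i)⁻¹ * (of i * cc i0 i1 * (of i)⁻¹) * w := by rw [e1]
      _ = cc i0 i1 * ((of i)⁻¹ * w) := by group
  have f2 : ((of i)⁻¹ * w) * dd i0 i1 = dd i0 i1 * ((of i)⁻¹ * w) := by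
    calc ((of i)⁻¹ * w) * dd i0 i1 = (of i)⁻¹ * (w * dd i0 i1 * w⁻¹) * w := by group
      _ = (of i)⁻¹ * (of i * dd i0 i1 * (of i)⁻¹) * w := by rw [e2]
      _ = dd i0 i1 * ((of i)⁻¹ * w) := by group
  have f3 : (of i)⁻¹ * w = 1 := by
    by_contra hne
    exact cc_dd_ne i0 i1 h01 (comm_trans _ _ _ hne f1 f2)
  rw [inv_mul_eq_one] at f3
  exact f3.symm

/-- Such an endomorphism fixes every commutator `[a^k, b]`. -/
theorem fix_comm {m n : ℕ} (i0 i1 : Fin n) (h01 : i1 ≠ i0)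
    (φ : Multiplicative (Fin m → ℤ) × FreeGroup (Fin n) →*
      Multiplicative (Fin m → ℤ) × FreeGroup (Fin n))
    (h : ∀ g ∈ genSet (m := m) i0 i1, φ g = g) (k : ℕ) :
    φ (1, (of i0) ^ k * of i1 * ((of i0) ^ k)⁻¹ * (of i1)⁻¹) =
      (1, (of i0) ^ k * of i1 * ((of i0) ^ k)⁻¹ * (of i1)⁻¹) := by
  have h0 := snd_eq_of_fix i0 i1 h01 φ h i0
  have h1 := snd_eq_of_fix i0 i1 h01 φ h i1
  have e : ((1 : Multiplicative (Fin m → ℤ)), (of i0) ^ k * of i1 * ((of i0) ^ k)⁻¹ * (of i1)⁻¹) =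
      (1, of i0) ^ k * (1, of i1) * ((1, of i0) ^ k)⁻¹ * (1, of i1)⁻¹ := by
    simp
  have e0 : φ (1, of i0) = ((φ (1, of i0)).1, of i0) := Prod.ext rfl h0
  have e1 : φ (1, of i1) = ((φ (1, of i1)).1, of i1) := Prod.ext rfl h1
  conv_lhs => rw [e]
  rw [_root_.map_mul, _root_.map_mul, _root_.map_mul, _root_.map_inv, _root_.map_inv, _root_.map_pow, e0, e1]
  apply Prod.ext
  · simp
  · simp

/-- The homomorphism `theta` kills the second component of the generating set. -/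
theorem theta_genSet {m n : ℕ} (j0 : Fin m) (i0 i1 : Fin n)
    (g : Multiplicative (Fin m → ℤ) × FreeGroup (Fin n)) (hg : g ∈ genSet (m := m) i0 i1) :
    theta j0 i0 g.2 = 1 := by
  have hc : theta j0 i0 (cc i0 i1) = 1 := by
    simp [cc, _root_.map_mul, _root_.map_inv]
  have hd : theta j0 i0 (dd i0 i1) = 1 := by
    simp [dd, _root_.map_mul, _root_.map_inv, hc]
  rcases hg with hg | hg | hg
  · simp only [Set.mem_insert_iff, Set.mem_singleton_iff] at hg
    rcases hg with rfl | rfl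
    · exact hc
    · exact hd
  · obtain ⟨i, rfl⟩ := hg
    simp [_root_.map_mul, _root_.map_inv, hc]
  · obtain ⟨i, rfl⟩ := hg
    simp [_root_.map_mul, _root_.map_inv, hd]

/-- The automorphism `(t, u) ↦ (t * theta u, u)` of `Z^m × F_n`. -/
def shear {m n : ℕ} (j0 : Fin m) (i0 : Fin n) :
    Multiplicative (Fin m → ℤ) × FreeGroup (Fin n) ≃*
      Multiplicative (Fin m → ℤ) × FreeGroup (Fin n) where
  toFun g := (g.1 * theta j0 i0 g.2, g.2)
  invFun g := (g.1 * (theta j0 i0 g.2)⁻¹, g.2)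
  left_inv g := by
    apply Prod.ext
    · simp
    · rfl
  right_inv g := by
    apply Prod.ext
    · simp
    · rfl
  map_mul' g h := by
    apply Prod.ext
    · simp only [Prod.fst_mul, Prod.snd_mul, _root_.map_mul]
      exact mul_mul_mul_comm _ _ _ _
    · rfl

theorem shear_fix {m n : ℕ} (j0 : Fin m) (i0 : Fin n)
    (g : Multiplicative (Fin m → ℤ) × FreeGroup (Fin n)) :
    shear j0 i0 g = g ↔ theta j0 i0 g.2 = 1 := by
  constructor
  · intro h
    have := congrArg Prod.fst h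
    simpa [shear] using this
  · intro h
    apply Prod.ext
    · simp [shear, h]
    · rfl

/-- The criterion for subgroups of `Z^m × F_n`. -/
theorem not_fg_prod {m n : ℕ} (j0 : Fin m) (i0 i1 : Fin n) (h01 : i1 ≠ i0)
    (K : Subgroup (Multiplicative (Fin m → ℤ) × FreeGroup (Fin n)))
    (h1 : ∀ u ∈ K, theta j0 i0 u.2 = 1)
    (h2 : ∀ k : ℕ, ((1 : Multiplicative (Fin m → ℤ)),
      (of i0) ^ k * of i1 * ((of i0) ^ k)⁻¹ * (of i1)⁻¹) ∈ K) : ¬ K.FG := by
  intro hK
  have h3 : (K.map (MonoidHom.snd _ _)).FG := by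
    rw [Subgroup.fg_iff_submonoid_fg] at hK ⊢
    exact hK.map (MonoidHom.snd _ _)
  refine not_fg_of j0 i0 i1 h01 _ ?_ ?_ h3
  · rintro u ⟨v, hv, rfl⟩
    exact h1 v hv
  · intro k
    exact ⟨_, h2 k, rfl⟩

end Pool.Agent.Helper27
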