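import Mathlib

set_option autoImplicit false

/-! A Hurewicz type separation theorem in the Cantor space, for families closed under compact
lower bounds. -/

namespace Pool.Agent.Helper27

open Set PiNat

/-- The Cantor space. -/
abbrev Can : Type := ℕ → Bool

/-- Agreement with `x` below `n`. -/
def cyl {α : Type*} (x : ℕ → α) (n : ℕ) : Set (ℕ → α) := {y | ∀ i < n, y i = x i}

theorem self_mem_cyl {α : Type*} (x : ℕ → α) (n : ℕ) : x ∈ cyl x n := fun _ _ => rfl

theorem cyl_anti {α : Type*} (x : ℕ → α) {m n : ℕ} (h : m ≤ n) : cyl x n ⊆ cyl x m :=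
  fun _ hy i hi => hy i (lt_of_lt_of_le hi h)

theorem cyl_trans {α : Type*} {x y z : ℕ → α} {n : ℕ} (h1 : y ∈ cyl x n) (h2 : z ∈ cyl y n) :
    z ∈ cyl x n := fun i hi => (h2 i hi).trans (h1 i hi)

theorem cyl_symm {α : Type*} {x y : ℕ → α} {n : ℕ} (h1 : y ∈ cyl x n) : x ∈ cyl y n :=
  fun i hi => (h1 i hi).symm

theorem isOpen_cyl {α : Type*} [TopologicalSpace α] [DiscreteTopology α] (x : ℕ → α) (n : ℕ) :
    IsOpen (cyl x n) := by
  have : cyl x n = ⋂ i ∈ Finset.range n, (fun y : ℕ → α => y i) ⁻¹' {x i} := by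
    ext y
    simp [cyl]
  rw [this]
  apply isOpen_biInter_finset
  intro i _
  exact (isOpen_discrete _).preimage (continuous_apply i)

theorem isClosed_cyl {α : Type*} [TopologicalSpace α] [DiscreteTopology α] (x : ℕ → α) (n : ℕ) :
    IsClosed (cyl x n) := by
  have : cyl x n = ⋂ i ∈ Finset.range n, (fun y : ℕ → α => y i) ⁻¹' {x i} := by
    ext y
    simp [cyl]
  rw [this]
  apply isClosed_biInter
  intro i _
  exact (isClosed_discrete _).preimage (continuous_apply i)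

/-- A continuous map between such spaces is, around each point, controlled by cylinders. -/
theorem exists_cyl_of_isOpen {α : Type*} [TopologicalSpace α] [DiscreteTopology α]
    {W : Set (ℕ → α)} (hW : IsOpen W) {x : ℕ → α} (hx : x ∈ W) : ∃ n, cyl x n ⊆ W := by
  rw [isOpen_pi_iff] at hW
  obtain ⟨I, u, hu, hsub⟩ := hW x hx
  obtain ⟨n, hn⟩ := I.exists_le
  refine ⟨n + 1, fun y hy => hsub ?_⟩
  intro i hi
  have : i < n + 1 := Nat.lt_succ_of_le (hn i hi)
  rw [hy i this]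
  exact (hu i hi).2

variable (H : Set Can) (g : (ℕ → ℕ) → Can)

/-- The image of the cylinder is covered by countably many closed sets missing `H`. -/
def Cov (S : Set (ℕ → ℕ)) : Prop :=
  ∃ F : ℕ → Set Can, (∀ j, IsClosed (F j)) ∧ (∀ j, Disjoint (F j) H) ∧ g '' S ⊆ ⋃ j, F j

/-- The kernel. -/
def Ker : Set (ℕ → ℕ) := {β | ∀ k, ¬ Cov H g (cyl β k)}

theorem cov_countable_biUnion {ι : Type*} (T : Set ι) (hT : T.Countable) (s : ι → Set (ℕ → ℕ))
    (h : ∀ i ∈ T, Cov H g (s i)) : Cov H g (⋃ i ∈ T, s i) := by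
  rcases T.eq_empty_or_nonempty with rfl | hne
  · exact ⟨fun _ => ∅, fun _ => isClosed_empty, fun _ => by simp, by simp⟩
  · obtain ⟨e, he⟩ := hT.exists_eq_range hne
    have h' : ∀ n, Cov H g (s (e n)) := fun n => h _ (by rw [he]; exact mem_range_self n)
    choose F hF1 hF2 hF3 using h'
    refine ⟨fun n => F (Nat.unpair n).1 (Nat.unpair n).2, fun n => hF1 _ _, fun n => hF2 _ _, ?_⟩
    rintro _ ⟨β, hβ, rfl⟩
    rw [mem_iUnion₂] at hβ
    obtain ⟨i, hi, hβ⟩ := hβ
    rw [he] at hi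
    obtain ⟨n, rfl⟩ := hi
    have := hF3 n (mem_image_of_mem g hβ)
    rw [mem_iUnion] at this ⊢
    obtain ⟨j, hj⟩ := this
    exact ⟨Nat.pair n j, by simpa using hj⟩

theorem cov_mono {S T : Set (ℕ → ℕ)} (h : S ⊆ T) (hT : Cov H g T) : Cov H g S := by
  obtain ⟨F, h1, h2, h3⟩ := hT
  exact ⟨F, h1, h2, (image_mono h).trans h3⟩

theorem cov_union {S T : Set (ℕ → ℕ)} (hS : Cov H g S) (hT : Cov H g T) : Cov H g (S ∪ T) := by
  have : S ∪ T = ⋃ b ∈ (univ : Set Bool), (fun b => if b then S else T) b := by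
    ext x; simp [or_comm]
  rw [this]
  apply cov_countable_biUnion
  · exact countable_univ
  · intro b _
    cases b
    · simpa using hT
    · simpa using hS

theorem cov_compl_ker : Cov H g (Ker H g)ᶜ := by
  have h1 : ∀ β : ↥((Ker H g)ᶜ), ∃ k, Cov H g (cyl β.1 k) := by
    intro β
    have := β.2
    simp only [Ker, mem_compl_iff, mem_ofPred_eq, not_forall, not_not] at this
    exact this
  choose k hk using h1
  obtain ⟨T, hT, hTe⟩ := TopologicalSpace.isOpen_iUnion_countable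
    (fun β : ↥((Ker H g)ᶜ) => cyl β.1 (k β)) (fun β => isOpen_cyl _ _)
  have h2 := cov_countable_biUnion H g T hT (fun β : ↥((Ker H g)ᶜ) => cyl β.1 (k β))
    (fun β _ => hk β)
  rw [hTe] at h2
  apply cov_mono H g _ h2
  intro β hβ
  exact mem_iUnion.2 ⟨⟨β, hβ⟩, self_mem_cyl _ _⟩

theorem exists_mem_closure {β : ℕ → ℕ} (hβ : β ∈ Ker H g) (k : ℕ) :
    ∃ q ∈ H, q ∈ closure (g '' (cyl β k ∩ Ker H g)) := by
  by_contra hcon
  push Not at hcon
  apply hβ k
  have h1 : Cov H g (cyl β k ∩ Ker H g) := by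
    refine ⟨fun _ => closure (g '' (cyl β k ∩ Ker H g)), fun _ => isClosed_closure, fun _ => ?_, ?_⟩
    · rw [Set.disjoint_left]
      intro q hq hqH
      exact hcon q hqH hq
    · intro x hx
      exact mem_iUnion.2 ⟨0, subset_closure hx⟩
  apply cov_mono H g _ (cov_union H g h1 (cov_compl_ker H g))
  intro x hx
  by_cases hxk : x ∈ Ker H g
  · exact Or.inl ⟨hx, hxk⟩
  · exact Or.inr hxk

/-- Cofinality of a family `S` below the compact subsets of `H` that are near the image of the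
cylinder. -/
def Cof (S : Set Can) (β : ℕ → ℕ) (k : ℕ) : Prop :=
  ∀ L : Set Can, IsClosed L → L ⊆ H → L ⊆ closure (g '' (cyl β k ∩ Ker H g)) →
    ∃ A ∈ S, ∀ a ∈ L, ∀ n, A n = true → a n = true

theorem step {f : (ℕ → ℕ) → Can} (hg : Continuous g) (σ : ℕ → ℕ) (l : ℕ) (β : ℕ → ℕ) (k : ℕ)
    (hβ : β ∈ Ker H g) (hc : Cof H g (f '' cyl σ l) β k) :
    ∃ σ' ∈ cyl σ l, ∃ β' ∈ cyl β k, ∃ k' > k, β' ∈ Ker H g ∧
      Cof H g (f '' cyl σ' (l + 1)) β' k' := by
  obtain ⟨q, hqH, hq⟩ := exists_mem_closure H g hβ k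
  have h1 : ∀ i : ℕ, ∃ γ ∈ cyl β k ∩ Ker H g, g γ ∈ cyl q i := by
    intro i
    rw [mem_closure_iff] at hq
    obtain ⟨_, hz1, γ, hγ, rfl⟩ := hq (cyl q i) (isOpen_cyl q i) (self_mem_cyl q i)
    exact ⟨γ, hγ, hz1⟩
  choose γ hγ1 hγ2 using h1
  have h2 : ∀ i : ℕ, ∃ k' > k, g '' cyl (γ i) k' ⊆ cyl q i := by
    intro i
    obtain ⟨n, hn⟩ := exists_cyl_of_isOpen ((isOpen_cyl q i).preimage hg) (hγ2 i)
    refine ⟨max n (k + 1), lt_of_lt_of_le (Nat.lt_succ_self k) (le_max_right _ _), ?_⟩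
    rintro _ ⟨x, hx, rfl⟩
    exact hn (cyl_anti _ (le_max_left _ _) hx)
  choose k' hk'1 hk'2 using h2
  by_contra hcon
  push Not at hcon
  have h3 : ∀ i : ℕ, ¬ Cof H g (f '' cyl (Function.update σ l i) (l + 1)) (γ i) (k' i) := by
    intro i
    apply hcon (Function.update σ l i) _ (γ i) (hγ1 i).1 (k' i) (hk'1 i) (hγ1 i).2
    intro j hj
    rw [Function.update_of_ne (ne_of_lt hj)]
  have h4 : ∀ i : ℕ, ∃ L : Set Can, IsClosed L ∧ L ⊆ H ∧
      L ⊆ closure (g '' (cyl (γ i) (k' i) ∩ Ker H g)) ∧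
      ∀ A ∈ f '' cyl (Function.update σ l i) (l + 1), ¬ ∀ a ∈ L, ∀ n, A n = true → a n = true := by
    intro i
    have := h3 i
    unfold Cof at this
    push Not at this
    obtain ⟨L, hL1, hL2, hL3, hL4⟩ := this
    refine ⟨L, hL1, hL2, hL3, ?_⟩
    intro A hA hcon2
    obtain ⟨a, ha, n, h5, h6⟩ := hL4 A hA
    exact h6 (hcon2 a ha n h5)
  choose L hL1 hL2 hL3 hL4 using h4
  have hLcyl : ∀ i, L i ⊆ cyl q i := by
    intro i
    refine (hL3 i).trans ?_
    apply closure_minimal _ (isClosed_cyl q i)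
    exact (image_mono inter_subset_left).trans (hk'2 i)
  have hLL : ({q} ∪ ⋃ i, L i : Set Can) = ⋂ m : ℕ, (cyl q m ∪ ⋃ i ∈ Finset.range m, L i) := by
    apply subset_antisymm
    · rintro z (hz | hz)
      · rw [mem_singleton_iff] at hz
        subst hz
        exact mem_iInter.2 fun m => Or.inl (self_mem_cyl _ _)
      · obtain ⟨i, hi⟩ := mem_iUnion.1 hz
        refine mem_iInter.2 fun m => ?_
        by_cases him : i < m
        · exact Or.inr (mem_iUnion₂.2 ⟨i, Finset.mem_range.2 him, hi⟩)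
        · exact Or.inl (cyl_anti _ (not_lt.1 him) (hLcyl i hi))
    · intro z hz
      by_cases hzU : z ∈ ⋃ i, L i
      · exact Or.inr hzU
      · left
        rw [mem_singleton_iff]
        funext n
        have := mem_iInter.1 hz (n + 1)
        rcases this with h | h
        · exact h n (Nat.lt_succ_self n)
        · exfalso
          apply hzU
          obtain ⟨i, _, hi⟩ := mem_iUnion₂.1 h
          exact mem_iUnion.2 ⟨i, hi⟩
  have hclosed : IsClosed ({q} ∪ ⋃ i, L i : Set Can) := by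
    rw [hLL]
    apply isClosed_iInter
    intro m
    apply (isClosed_cyl q m).union
    apply Set.Finite.isClosed_biUnion (Finset.finite_toSet _)
    intro i _
    exact hL1 i
  obtain ⟨A, hA, hA2⟩ := hc _ hclosed
    (by
      rintro z (hz | hz)
      · rw [mem_singleton_iff] at hz
        rw [hz]; exact hqH
      · obtain ⟨i, hi⟩ := mem_iUnion.1 hz
        exact hL2 i hi)
    (by
      rintro z (hz | hz)
      · rw [mem_singleton_iff] at hz
        rw [hz]; exact hq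
      · obtain ⟨i, hi⟩ := mem_iUnion.1 hz
        apply closure_mono _ (hL3 i hi)
        apply image_mono
        apply inter_subset_inter_left
        intro x hx
        exact cyl_trans (hγ1 i).1 (cyl_anti _ (le_of_lt (hk'1 i)) hx))
  obtain ⟨α, hα, rfl⟩ := hA
  apply hL4 (α l) (f α)
  · refine ⟨α, ?_, rfl⟩
    intro j hj
    rcases Nat.lt_succ_iff_lt_or_eq.1 hj with h | h
    · rw [Function.update_of_ne (ne_of_lt h)]
      exact hα j h
    · subst h
      simp
  · intro a ha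
    exact hA2 a (Or.inr (mem_iUnion.2 ⟨_, ha⟩))

/-- Main separation theorem. -/
theorem separation (T : Set Can) (hH : MeasureTheory.AnalyticSet H)
    (hT : MeasureTheory.AnalyticSet T)
    (h1 : ∀ L : Set Can, IsClosed L → L ⊆ H → ∃ A ∈ H, ∀ a ∈ L, ∀ n, A n = true → a n = true)
    (h2 : ∀ a ∈ H, ∀ b ∈ T, ¬ ∀ n, a n = true → b n = true) :
    ∃ F : ℕ → Set Can, (∀ j, IsClosed (F j)) ∧ (∀ j, Disjoint (F j) H) ∧ T ⊆ ⋃ j, F j := by
  rw [MeasureTheory.AnalyticSet] at hH hT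
  rcases hT with rfl | ⟨g, hg, rfl⟩
  · exact ⟨fun _ => ∅, fun _ => isClosed_empty, fun _ => by simp, by simp⟩
  rcases hH with rfl | ⟨f, hf, rfl⟩
  · exact ⟨fun _ => univ, fun _ => isClosed_univ, fun _ => by simp, by
      intro x _; exact mem_iUnion.2 ⟨0, mem_univ _⟩⟩
  set H := range f with hHdef
  rcases (Ker H g).eq_empty_or_nonempty with hK | ⟨β0, hβ0⟩
  · have := cov_compl_ker H g
    rw [hK, compl_empty] at this
    obtain ⟨F, hF1, hF2, hF3⟩ := this
    rw [image_univ] at hF3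
    exact ⟨F, hF1, hF2, hF3⟩
  exfalso
  -- the state of the construction
  let St := {s : (ℕ → ℕ) × (ℕ → ℕ) × ℕ × ℕ // s.2.1 ∈ Ker H g ∧
    Cof H g (f '' cyl s.1 s.2.2.2) s.2.1 s.2.2.1}
  have hstep : ∀ s : St, ∃ s' : St, s'.1.1 ∈ cyl s.1.1 s.1.2.2.2 ∧
      s'.1.2.1 ∈ cyl s.1.2.1 s.1.2.2.1 ∧ s'.1.2.2.1 > s.1.2.2.1 ∧
      s'.1.2.2.2 = s.1.2.2.2 + 1 := by
    rintro ⟨⟨σ, β, k, l⟩, hβ, hc⟩
    obtain ⟨σ', hσ', β', hβ', k', hk', hK', hC'⟩ := step H g hg σ l β k hβ hc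
    exact ⟨⟨⟨σ', β', k', l + 1⟩, hK', hC'⟩, hσ', hβ', hk', rfl⟩
  choose nxt hn1 hn2 hn3 hn4 using hstep
  let s0 : St := ⟨⟨fun _ => 0, β0, 0, 0⟩, hβ0, by
    intro L hL hLH _
    obtain ⟨A, hA, hA2⟩ := h1 L hL hLH
    refine ⟨A, ?_, hA2⟩
    obtain ⟨x, rfl⟩ := hA
    exact ⟨x, fun i hi => absurd hi (Nat.not_lt_zero i), rfl⟩⟩
  let s : ℕ → St := fun n => Nat.rec s0 (fun _ t => nxt t) n
  have hs : ∀ n, s (n + 1) = nxt (s n) := fun n => rfl
  have hl : ∀ n, (s n).1.2.2.2 = n := by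
    intro n
    induction n with
    | zero => rfl
    | succ n ih => rw [hs, hn4, ih]
  have hk : ∀ n, n ≤ (s n).1.2.2.1 := by
    intro n
    induction n with
    | zero => exact Nat.zero_le _
    | succ n ih => rw [hs]; exact lt_of_le_of_lt ih (hn3 (s n))
  have hσ : ∀ n d, (s (n + d)).1.1 ∈ cyl (s n).1.1 n := by
    intro n d
    induction d with
    | zero => exact self_mem_cyl _ _
    | succ d ih =>
      refine cyl_trans ih ?_
      have := hn1 (s (n + d))
      rw [hl] at this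
      exact cyl_anti _ (Nat.le_add_right n d) this
  have hβ : ∀ n d, (s (n + d)).1.2.1 ∈ cyl (s n).1.2.1 n := by
    intro n d
    induction d with
    | zero => exact self_mem_cyl _ _
    | succ d ih =>
      refine cyl_trans ih ?_
      have := hn2 (s (n + d))
      exact cyl_anti _ ((Nat.le_add_right n d).trans (hk _)) this
  let σI : ℕ → ℕ := fun i => (s (i + 1)).1.1 i
  let βI : ℕ → ℕ := fun i => (s (i + 1)).1.2.1 i
  have hσI : ∀ n, (s n).1.1 ∈ cyl σI n := by
    intro n i hi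
    show (s n).1.1 i = (s (i + 1)).1.1 i
    obtain ⟨d, rfl⟩ := Nat.exists_eq_add_of_le (Nat.succ_le_of_lt hi)
    exact hσ (i + 1) d i (Nat.lt_succ_self i)
  have hβI : ∀ n, (s n).1.2.1 ∈ cyl βI n := by
    intro n i hi
    show (s n).1.2.1 i = (s (i + 1)).1.2.1 i
    obtain ⟨d, rfl⟩ := Nat.exists_eq_add_of_le (Nat.succ_le_of_lt hi)
    exact hβ (i + 1) d i (Nat.lt_succ_self i)
  apply h2 (f σI) (mem_range_self _) (g βI) (mem_range_self _)
  intro n hn
  obtain ⟨N1, hN1⟩ := exists_cyl_of_isOpen ((isOpen_cyl (f σI) (n + 1)).preimage hf)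
    (self_mem_cyl (f σI) (n + 1))
  obtain ⟨N2, hN2⟩ := exists_cyl_of_isOpen ((isOpen_cyl (g βI) (n + 1)).preimage hg)
    (self_mem_cyl (g βI) (n + 1))
  set N := max N1 N2 with hN
  obtain ⟨q, hqH, hq⟩ := exists_mem_closure H g (s N).2.1 (s N).1.2.2.1
  obtain ⟨A, hA, hA2⟩ := (s N).2.2 {q} isClosed_singleton (singleton_subset_iff.2 hqH)
    (singleton_subset_iff.2 hq)
  have hq2 : q ∈ cyl (g βI) (n + 1) := by
    have h5 : closure (g '' (cyl (s N).1.2.1 (s N).1.2.2.1 ∩ Ker H g)) ⊆ cyl (g βI) (n + 1) := by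
      apply closure_minimal _ (isClosed_cyl _ _)
      rintro _ ⟨x, hx, rfl⟩
      apply hN2
      apply cyl_anti _ (le_max_right N1 N2)
      apply cyl_trans (hβI N)
      exact cyl_anti _ (hk N) hx.1
    exact h5 hq
  have hA3 : A ∈ cyl (f σI) (n + 1) := by
    obtain ⟨x, hx, rfl⟩ := hA
    apply hN1
    apply cyl_anti _ (le_max_left N1 N2)
    apply cyl_trans (hσI N)
    rw [hl] at hx
    exact hx
  have h6 : A n = true := by rw [hA3 n (Nat.lt_succ_self n), hn]
  have h7 := hA2 q rfl n h6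
  rw [← hq2 n (Nat.lt_succ_self n), h7]

end Pool.Agent.Helper27
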